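import Pool.Agent.Y142.ZD.Stm
import Pool.Agent.Y674.ZS.SPL

set_option autoImplicit false

/-! Task SUB of project Y142-ZD: factors over `ℚ_ℓ` and stable sets of roots. -/

open Polynomial NumberField
open Pool.Agent.Y142.ZO Pool.Agent.Y142.ZI Pool.Agent.Y142.ZD Pool.Agent.Y971.ZI

namespace Pool.Agent.Y100.ZD

/-- **Task SUB.** -/
theorem t : S_SUB := by
  classical
  intro Q hQm hQs
  obtain ⟨D, hD0, P, hPm, hP⟩ := exists_scale Q hQm
  have hDQ : (D : ℚ) ≠ 0 := by exact_mod_cast hD0.ne'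
  have hDQQ : (D : QQ) ≠ 0 := by exact_mod_cast hD0.ne'
  have hPsep : (P.map (Int.castRingHom ℚ)).Separable := by
    rw [hP, separable_def, derivative_scale Q _]
    exact isCoprime_scaleRoots _ _ _ (isUnit_iff_ne_zero.mpr hDQ) hQs
  obtain ⟨N, hN0, a, b, hab⟩ := sep_bound P hPsep
  refine ⟨N.natAbs, ?_⟩
  intro ℓ hℓ hfact σ hfrob
  have hℓp : ℓ.Prime := hfact.out
  obtain ⟨𝔔, hmax, hmem, hfr⟩ := hfrob
  let _ : Field ((𝓞 QQ) ⧸ 𝔔) := Ideal.Quotient.field 𝔔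
  have hchar : CharP ((𝓞 QQ) ⧸ 𝔔) ℓ := by
    rw [CharP.charP_iff_prime_eq_zero hfact.out]
    have h1 : Ideal.Quotient.mk 𝔔 (ℓ : 𝓞 QQ) = 0 := Ideal.Quotient.eq_zero_iff_mem.mpr hmem
    rwa [map_natCast] at h1
  set mk : 𝓞 QQ →+* (𝓞 QQ) ⧸ 𝔔 := Ideal.Quotient.mk 𝔔 with hmk
  set φ : ZMod ℓ →+* (𝓞 QQ) ⧸ 𝔔 := ZMod.castHom dvd_rfl _ with hφ
  have hfrob : ∀ w : 𝓞 QQ, mk (σ • w) = (mk w) ^ ℓ := by
    intro w
    rw [← map_pow]
    exact Ideal.Quotient.eq.mpr (hfr w)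
  have hcoe : ∀ (τ : GK ℚ) (w : 𝓞 QQ), ((τ • w : 𝓞 QQ) : QQ) = τ (w : QQ) := fun τ w => rfl
  have hPO : (P.map (algebraMap ℤ (𝓞 QQ))).Splits := by
    apply Polynomial.Splits.of_splits_map_of_injective (i := algebraMap (𝓞 QQ) QQ)
      (RingOfIntegers.coe_injective)
    · exact IsAlgClosed.splits _
    · intro x hx
      rw [Polynomial.map_map] at hx
      have hx2 := Polynomial.isRoot_of_mem_roots hx
      have hint : IsIntegral ℤ x := by
        refine ⟨P, hPm, ?_⟩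
        have : eval₂ ((algebraMap (𝓞 QQ) QQ).comp (algebraMap ℤ (𝓞 QQ))) x P = 0 := by
          rw [← eval_map]
          exact hx2
        rwa [← IsScalarTower.algebraMap_eq ℤ (𝓞 QQ) QQ] at this
      exact ⟨⟨x, hint⟩, rfl⟩
  have hPκ : P.map (Int.castRingHom ((𝓞 QQ) ⧸ 𝔔)) = (P.map (algebraMap ℤ (𝓞 QQ))).map mk := by
    rw [Polynomial.map_map]
    congr 1
  have hPκs : (P.map (Int.castRingHom ((𝓞 QQ) ⧸ 𝔔))).Splits := by
    rw [hPκ]
    exact hPO.map mk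
  have hPκ0 : P.map (Int.castRingHom ((𝓞 QQ) ⧸ 𝔔)) ≠ 0 := (hPm.map _).ne_zero
  have hlift : ∀ x : (𝓞 QQ) ⧸ 𝔔, eval x (P.map (Int.castRingHom ((𝓞 QQ) ⧸ 𝔔))) = 0 →
      ∃ w : 𝓞 QQ, mk w = x ∧ aeval (w : QQ) P = 0 := by
    intro x hx
    have h1 : x ∈ (P.map (Int.castRingHom ((𝓞 QQ) ⧸ 𝔔))).roots := by
      rw [Polynomial.mem_roots hPκ0]
      exact hx
    rw [hPκ, hPO.roots_map_of_ne_zero (by rw [← hPκ]; exact hPκ0), Multiset.mem_map] at h1
    obtain ⟨w, hw, hwx⟩ := h1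
    refine ⟨w, hwx, ?_⟩
    have h2 := Polynomial.isRoot_of_mem_roots hw
    rw [Polynomial.IsRoot.def, eval_map] at h2
    have h3 := congrArg (algebraMap (𝓞 QQ) QQ) h2
    rw [hom_eval₂, map_zero, ← IsScalarTower.algebraMap_eq ℤ (𝓞 QQ) QQ] at h3
    exact h3
  -- the roots of `Q` and of `P`
  have key : ∀ w : 𝓞 QQ, aeval (w : QQ) P = 0 → aeval ((w : QQ) / D) Q = 0 := by
    intro w hw
    have h3 := scaleRoots_eval₂_mul (p := Q) (algebraMap ℚ QQ) ((w : QQ) / D) (D : ℚ)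
    rw [← hP, map_natCast, mul_div_cancel₀ _ hDQQ, eval₂_map] at h3
    have h4 : eval₂ ((algebraMap ℚ QQ).comp (Int.castRingHom ℚ)) (w : QQ) P = 0 := by
      rw [RingHom.ext_int ((algebraMap ℚ QQ).comp (Int.castRingHom ℚ)) (algebraMap ℤ QQ)]
      exact hw
    rw [h4] at h3
    rcases mul_eq_zero.mp h3.symm with h5 | h5
    · exact absurd h5 (pow_ne_zero _ hDQQ)
    · exact h5
  have key' : ∀ x : QQ, aeval x Q = 0 → ∃ w : 𝓞 QQ, (w : QQ) = D * x ∧ aeval (w : QQ) P = 0 := by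
    intro x hx
    have h3 := scaleRoots_eval₂_mul (p := Q) (algebraMap ℚ QQ) x (D : ℚ)
    rw [← hP, map_natCast, eval₂_map] at h3
    have h5 : eval₂ (algebraMap ℚ QQ) x Q = 0 := hx
    rw [h5, mul_zero] at h3
    have h4 : aeval ((D : QQ) * x) P = 0 := by
      rw [RingHom.ext_int ((algebraMap ℚ QQ).comp (Int.castRingHom ℚ)) (algebraMap ℤ QQ)] at h3
      exact h3
    exact ⟨⟨(D : QQ) * x, P, hPm, h4⟩, rfl, h4⟩
  have hcomp : φ.comp (Int.castRingHom (ZMod ℓ)) = Int.castRingHom ((𝓞 QQ) ⧸ 𝔔) :=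
    RingHom.ext_int _ _
  -- separability modulo `ℓ`
  have hNℓ : ((N : ℤ) : ZMod ℓ) ≠ 0 := by
    intro h4
    rw [ZMod.intCast_zmod_eq_zero_iff_dvd] at h4
    have h5 := Int.natAbs_dvd_natAbs.mpr h4
    rw [Int.natAbs_natCast] at h5
    have h6 := Nat.le_of_dvd (Int.natAbs_pos.mpr hN0) h5
    omega
  have hval : ∀ x : ZMod ℓ, eval x (P.map (Int.castRingHom (ZMod ℓ))) = 0 →
      eval x ((derivative P).map (Int.castRingHom (ZMod ℓ))) ≠ 0 := by
    intro x hx hx'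
    have h3 := congrArg (fun q : ℤ[X] => eval x (q.map (Int.castRingHom (ZMod ℓ)))) hab
    simp only [Polynomial.map_add, Polynomial.map_mul, eval_add,
      eval_mul, hx, hx', mul_zero, add_zero, Polynomial.map_C, eval_C] at h3
    rw [eq_intCast] at h3
    exact hNℓ h3.symm
  have hsepℓ : (P.map (Int.castRingHom (ZMod ℓ))).Separable := by
    rw [separable_def]
    have h3 : a.map (Int.castRingHom (ZMod ℓ)) * P.map (Int.castRingHom (ZMod ℓ)) +
        b.map (Int.castRingHom (ZMod ℓ)) * (derivative P).map (Int.castRingHom (ZMod ℓ)) =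
        C ((N : ℤ) : ZMod ℓ) := by
      rw [← Polynomial.map_mul, ← Polynomial.map_mul, ← Polynomial.map_add, hab, Polynomial.map_C]
      rfl
    refine ⟨C ((N : ZMod ℓ)⁻¹) * a.map (Int.castRingHom (ZMod ℓ)),
      C ((N : ZMod ℓ)⁻¹) * b.map (Int.castRingHom (ZMod ℓ)), ?_⟩
    rw [mul_assoc, mul_assoc, ← mul_add, derivative_map, h3, ← C_mul, inv_mul_cancel₀ hNℓ, C_1]
  -- Hensel
  have hhens : ∀ x : ZMod ℓ, x ∈ (P.map (Int.castRingHom (ZMod ℓ))).roots →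
      ∃ z : ℤ_[ℓ], aeval z P = 0 ∧ PadicInt.toZMod z = x := by
    intro x hx
    have hx2 : eval x (P.map (Int.castRingHom (ZMod ℓ))) = 0 := Polynomial.isRoot_of_mem_roots hx
    have hx3 := hval x hx2
    obtain ⟨c, hc⟩ : ∃ c : ℤ, c = (x.val : ℤ) := ⟨_, rfl⟩
    have hcx : (c : ZMod ℓ) = x := by
      rw [hc]
      push_cast
      exact ZMod.natCast_zmod_val x
    have hev : ∀ G : ℤ[X], aeval ((c : ℤ) : ℤ_[ℓ]) G = ((eval c G : ℤ) : ℤ_[ℓ]) := by
      intro G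
      rw [aeval_def, ← eval_map]
      have := eval_intCast_map (Int.castRingHom ℤ_[ℓ]) G c
      rw [eq_intCast] at this
      exact this
    have hevℓ : ∀ G : ℤ[X], eval x (G.map (Int.castRingHom (ZMod ℓ))) = ((eval c G : ℤ) : ZMod ℓ) := by
      intro G
      rw [← hcx]
      have := eval_intCast_map (Int.castRingHom (ZMod ℓ)) G c
      rw [eq_intCast] at this
      exact this
    rw [hevℓ, ZMod.intCast_zmod_eq_zero_iff_dvd] at hx2
    have hx4 : ¬ (ℓ : ℤ) ∣ eval c (derivative P) := by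
      rw [hevℓ] at hx3
      intro h
      exact hx3 ((ZMod.intCast_zmod_eq_zero_iff_dvd _ _).2 h)
    have n1 : ‖((eval c P : ℤ) : ℤ_[ℓ])‖ < 1 := PadicInt.norm_int_lt_one_iff_dvd _ |>.2 hx2
    have n2 : ‖((eval c (derivative P) : ℤ) : ℤ_[ℓ])‖ = 1 := by
      refine le_antisymm (PadicInt.norm_le_one _) ?_
      by_contra hcon
      exact hx4 ((PadicInt.norm_int_lt_one_iff_dvd _).1 (not_le.1 hcon))
    obtain ⟨z, hz, hz2, -⟩ := hensels_lemma (F := P) (a := ((c : ℤ) : ℤ_[ℓ])) (by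
      rw [hev, hev, n2]
      simpa using n1)
    refine ⟨z, hz, ?_⟩
    rw [hev, n2] at hz2
    have h1 : z - ((c : ℤ) : ℤ_[ℓ]) ∈ RingHom.ker (PadicInt.toZMod : ℤ_[ℓ] →+* ZMod ℓ) := by
      rw [PadicInt.ker_toZMod, IsLocalRing.mem_maximalIdeal, PadicInt.mem_nonunits]
      exact hz2
    rw [RingHom.mem_ker, map_sub, map_intCast, hcx] at h1
    exact sub_eq_zero.1 h1
  have hsepκ : (P.map (Int.castRingHom ((𝓞 QQ) ⧸ 𝔔))).Separable := by
    have h1 := hsepℓ.map (f := φ)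
    rwa [Polynomial.map_map, hcomp] at h1
  -- the reduction is injective on the roots
  set W : Multiset (𝓞 QQ) := (P.map (algebraMap ℤ (𝓞 QQ))).roots with hW
  have hPO0 : P.map (algebraMap ℤ (𝓞 QQ)) ≠ 0 := (hPm.map _).ne_zero
  have hWm : ∀ w : 𝓞 QQ, w ∈ W ↔ aeval (w : QQ) P = 0 := by
    intro w
    rw [hW, Polynomial.mem_roots hPO0, IsRoot.def, eval_map]
    have e : aeval (w : QQ) P = algebraMap (𝓞 QQ) QQ (eval₂ (algebraMap ℤ (𝓞 QQ)) w P) := by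
      rw [hom_eval₂, ← IsScalarTower.algebraMap_eq ℤ (𝓞 QQ) QQ]
      rfl
    rw [e]
    constructor
    · intro h
      rw [h, map_zero]
    · intro h
      exact RingOfIntegers.coe_injective (h.trans (map_zero _).symm)
  have hWmap : W.map mk = (P.map (Int.castRingHom ((𝓞 QQ) ⧸ 𝔔))).roots := by
    rw [hPκ, hPO.roots_map_of_ne_zero (by rw [← hPκ]; exact hPκ0)]
  have hWinj : ∀ w₁ ∈ W, ∀ w₂ ∈ W, mk w₁ = mk w₂ → w₁ = w₂ := by
    have h1 : (W.map mk).Nodup := by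
      rw [hWmap]
      exact nodup_roots hsepκ
    exact fun w₁ h₁ w₂ h₂ h => Multiset.inj_on_of_nodup_map h1 w₁ h₁ w₂ h₂ h
  refine ⟨?_, ?_⟩
  · intro R hR hRQ
    obtain ⟨g, hg⟩ := hRQ
    have hgm : g.Monic := by
      refine hR.of_mul_monic_left ?_
      rw [← hg]
      exact hQm.map _
    have hprod : R.scaleRoots (D : ℚ_[ℓ]) * g.scaleRoots (D : ℚ_[ℓ]) =
        (P.map (Int.castRingHom ℤ_[ℓ])).map (algebraMap ℤ_[ℓ] ℚ_[ℓ]) := by
      rw [← mul_scaleRoots_of_noZeroDivisors, ← hg]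
      have h1 := map_scaleRoots Q (D : ℚ) (algebraMap ℚ ℚ_[ℓ]) (by
        rw [hQm.leadingCoeff, map_one]; exact one_ne_zero)
      rw [map_natCast] at h1
      rw [← h1, ← hP, Polynomial.map_map, Polynomial.map_map]
      congr 1
    have hPZm : (P.map (Int.castRingHom ℤ_[ℓ])).Monic := hPm.map _
    have hf1 : (R.scaleRoots (D : ℚ_[ℓ])).Monic := (monic_scaleRoots_iff _).mpr hR
    have hg1 : (g.scaleRoots (D : ℚ_[ℓ])).Monic := (monic_scaleRoots_iff _).mpr hgm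
    obtain ⟨F, hF⟩ := IsIntegrallyClosed.eq_map_mul_C_of_dvd ℚ_[ℓ] hPZm
      (Dvd.intro _ hprod : R.scaleRoots (D : ℚ_[ℓ]) ∣ _)
    obtain ⟨G, hG⟩ := IsIntegrallyClosed.eq_map_mul_C_of_dvd ℚ_[ℓ] hPZm
      (Dvd.intro_left _ hprod : g.scaleRoots (D : ℚ_[ℓ]) ∣ _)
    rw [hf1.leadingCoeff, C_1, mul_one] at hF
    rw [hg1.leadingCoeff, C_1, mul_one] at hG
    have hinj : Function.Injective (algebraMap ℤ_[ℓ] ℚ_[ℓ]) := IsFractionRing.injective _ _
    have hFm : F.Monic := Polynomial.monic_of_injective hinj (by rw [hF]; exact hf1)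
    have hFG : F * G = P.map (Int.castRingHom ℤ_[ℓ]) := by
      apply Polynomial.map_injective _ hinj
      rw [Polynomial.map_mul, hF, hG, hprod]
    have hFdeg : F.natDegree = R.natDegree := by
      rw [← hFm.natDegree_map (algebraMap ℤ_[ℓ] ℚ_[ℓ]), hF, natDegree_scaleRoots]
    set ψ : ℤ_[ℓ] →+* (𝓞 QQ) ⧸ 𝔔 := φ.comp PadicInt.toZMod with hψ
    have hprodκ : F.map ψ * G.map ψ = P.map (Int.castRingHom ((𝓞 QQ) ⧸ 𝔔)) := by
      rw [← Polynomial.map_mul, hFG, Polynomial.map_map]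
      congr 1
      exact RingHom.ext_int _ _
    have hpow : ∀ w : 𝓞 QQ, eval (mk w) (F.map ψ) = 0 → eval (mk (σ • w)) (F.map ψ) = 0 := by
      intro w hw
      rw [hfrob]
      have h1 : eval₂ φ ((mk w) ^ ℓ) (F.map PadicInt.toZMod)
          = (eval₂ φ (mk w) (F.map PadicInt.toZMod)) ^ ℓ := by
        have h2 := hom_eval₂ (F.map PadicInt.toZMod) φ (frobenius ((𝓞 QQ) ⧸ 𝔔) ℓ) (mk w)
        rw [frobenius_def, frobenius_def] at h2
        rw [h2]
        congr 1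
        exact RingHom.ext_zmod _ _
      have h3 : ∀ z : (𝓞 QQ) ⧸ 𝔔, eval z (F.map ψ) = eval₂ φ z (F.map PadicInt.toZMod) := by
        intro z
        rw [eval_map, eval₂_map]
      rw [h3, h1, ← h3, hw, zero_pow hℓp.ne_zero]
    have hdvdF : F.map ψ ∣ P.map (Int.castRingHom ((𝓞 QQ) ⧸ 𝔔)) := Dvd.intro _ hprodκ
    have hFκ0 : F.map ψ ≠ 0 := (hFm.map _).ne_zero
    have hFs : (F.map ψ).Splits := Splits.of_dvd hPκs hPκ0 hdvdF
    have hFsep : (F.map ψ).Separable := hsepκ.of_dvd hdvdF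
    -- the set
    set V : Finset (𝓞 QQ) := W.toFinset.filter fun w => eval (mk w) (F.map ψ) = 0 with hV
    have hVm : ∀ w, w ∈ V ↔ aeval (w : QQ) P = 0 ∧ eval (mk w) (F.map ψ) = 0 := by
      intro w
      rw [hV, Finset.mem_filter, Multiset.mem_toFinset, hWm]
    have hVcard : V.card = R.natDegree := by
      have h1 : V.image mk = (F.map ψ).roots.toFinset := by
        ext y
        rw [Finset.mem_image, Multiset.mem_toFinset, mem_roots hFκ0, IsRoot.def]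
        constructor
        · rintro ⟨w, hw, rfl⟩
          exact ((hVm w).mp hw).2
        · intro hy
          obtain ⟨w, hw, hw2⟩ := hlift y (by rw [← hprodκ, eval_mul, hy, zero_mul])
          refine ⟨w, (hVm w).mpr ⟨hw2, ?_⟩, hw⟩
          rw [hw]
          exact hy
      have h2 : (V.image mk).card = V.card := by
        refine Finset.card_image_of_injOn fun w₁ h₁ w₂ h₂ h => ?_
        exact hWinj w₁ ((hWm _).mpr ((hVm w₁).mp h₁).1) w₂ ((hWm _).mpr ((hVm w₂).mp h₂).1) h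
      rw [← h2, h1, Multiset.toFinset_card_of_nodup (nodup_roots hFsep),
        ← hFs.natDegree_eq_card_roots, hFm.natDegree_map, hFdeg]
    refine ⟨(fun w : 𝓞 QQ => (w : QQ) / D) '' (V : Set (𝓞 QQ)), ?_, ?_, ?_⟩
    · rintro _ ⟨w, hw, rfl⟩
      exact key w ((hVm w).mp hw).1
    · rw [Set.ncard_image_of_injective, Set.ncard_coe_finset, hVcard]
      intro w₁ w₂ h
      exact RingOfIntegers.coe_injective ((div_left_inj' hDQQ).mp h)
    · rintro _ ⟨w, hw, rfl⟩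
      obtain ⟨h1, h2⟩ := (hVm w).mp hw
      refine ⟨σ • w, (hVm _).mpr ⟨?_, hpow w h2⟩, ?_⟩
      · rw [hcoe]
        have h3 : aeval (σ (w : QQ)) P = σ (aeval (w : QQ) P) := by
          rw [aeval_def, aeval_def]
          have h4 := hom_eval₂ P (algebraMap ℤ QQ) (σ : QQ →+* QQ) (w : QQ)
          rw [RingHom.ext_int ((σ : QQ →+* QQ).comp (algebraMap ℤ QQ)) (algebraMap ℤ QQ)] at h4
          exact h4.symm
        rw [h3, h1, map_zero]
      · show ((σ • w : 𝓞 QQ) : QQ) / D = σ ((w : QQ) / D)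
        rw [hcoe, map_div₀, map_natCast]
  · rintro ⟨x, hx, hσx⟩
    obtain ⟨w, hwx, hw⟩ := key' x hx
    have hσw : σ • w = w := by
      apply RingOfIntegers.coe_injective
      show ((σ • w : 𝓞 QQ) : QQ) = (w : QQ)
      rw [hcoe, hwx, map_mul, map_natCast, hσx]
    have h1 := hfrob w
    rw [hσw] at h1
    obtain ⟨y, hy⟩ := Pool.Agent.Y674.ZS.mem_prime ℓ φ (mk w) h1.symm
    have hyr : y ∈ (P.map (Int.castRingHom (ZMod ℓ))).roots := by
      rw [mem_roots (hPm.map _).ne_zero, IsRoot.def]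
      apply φ.injective
      rw [map_zero, ← eval₂_hom, ← eval_map, Polynomial.map_map, hcomp, hy]
      have h2 : mk w ∈ (P.map (Int.castRingHom ((𝓞 QQ) ⧸ 𝔔))).roots := by
        rw [← hWmap]
        exact Multiset.mem_map_of_mem _ ((hWm w).mpr hw)
      exact isRoot_of_mem_roots h2
    obtain ⟨z, hz, -⟩ := hhens y hyr
    have hDℓ : (D : ℚ_[ℓ]) ≠ 0 := by exact_mod_cast hD0.ne'
    refine ⟨(z : ℚ_[ℓ]) / D, ?_⟩
    rw [eval_map]
    have h3 := scaleRoots_eval₂_mul (p := Q) (algebraMap ℚ ℚ_[ℓ]) ((z : ℚ_[ℓ]) / D) (D : ℚ)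
    rw [← hP, map_natCast, mul_div_cancel₀ _ hDℓ, eval₂_map] at h3
    have h4 : eval₂ ((algebraMap ℚ ℚ_[ℓ]).comp (Int.castRingHom ℚ)) (z : ℚ_[ℓ]) P = 0 := by
      have h5 := congrArg (algebraMap ℤ_[ℓ] ℚ_[ℓ]) hz
      rw [aeval_def, hom_eval₂, map_zero] at h5
      rw [RingHom.ext_int ((algebraMap ℚ ℚ_[ℓ]).comp (Int.castRingHom ℚ))
        ((algebraMap ℤ_[ℓ] ℚ_[ℓ]).comp (algebraMap ℤ ℤ_[ℓ]))]
      exact h5
    rw [h4] at h3
    rcases mul_eq_zero.mp h3.symm with h5 | h5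
    · exact absurd h5 (pow_ne_zero _ hDℓ)
    · exact h5

end Pool.Agent.Y100.ZD
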